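import Pool.Agent.N659.HB.Stm8

/-!
# Project SD, part N1 (helper123): the averaged resolvent is close to the transform of the law
-/

set_option autoImplicit false
set_option linter.unusedSectionVars false
set_option linter.unusedVariables false

namespace Pool.Agent.N123.SD

open MeasureTheory Filter Pool.Agent.W792.LL Pool.Agent.W792.WA Pool.Agent.N659.HB
open scoped Topology ENNReal

noncomputable section

/-! ## A. Abstract resolvents on a vertical line -/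

section Abs

variable {Ω : Type*} [MeasurableSpace Ω] {H : Type*} [NormedAddCommGroup H]
  [InnerProductSpace ℂ H]

/-- the properties of the resolvents which we use -/
structure Res (G : ℝ → Ω → (H →L[ℂ] H)) : Prop where
  bd : ∀ y, 0 < y → ∀ v, ‖G y v‖ ≤ 1 / y
  id : ∀ y y', 0 < y → 0 < y' → ∀ v,
    G y' v - G y v = (Complex.I * ((y' - y : ℝ) : ℂ)) • (G y' v * G y v)

lemma Res.ap {G : ℝ → Ω → (H →L[ℂ] H)} (h : Res G) {y : ℝ} (hy : 0 < y) (v : Ω) (u : H) :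
    ‖G y v u‖ ≤ 1 / y * ‖u‖ :=
  (ContinuousLinearMap.le_opNorm _ _).trans
    (mul_le_mul_of_nonneg_right (h.bd y hy v) (norm_nonneg _))

lemma Res.inn {G : ℝ → Ω → (H →L[ℂ] H)} (h : Res G) {y : ℝ} (hy : 0 < y) (v : Ω) (u' u : H) :
    ‖(inner ℂ u' (G y v u) : ℂ)‖ ≤ ‖u'‖ * (1 / y * ‖u‖) :=
  (norm_inner_le_norm _ _).trans (mul_le_mul_of_nonneg_left (h.ap hy v u) (norm_nonneg _))

lemma Res.df {G : ℝ → Ω → (H →L[ℂ] H)} (h : Res G) {y y' : ℝ} (hy : 0 < y) (hy' : 0 < y')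
    (v : Ω) (u' u : H) :
    (inner ℂ u' (G y' v u) : ℂ) - inner ℂ u' (G y v u) =
      Complex.I * ((y' - y : ℝ) : ℂ) * inner ℂ u' (G y' v (G y v u)) := by
  rw [← inner_sub_right, ← sub_apply, h.id y y' hy hy' v, smul_apply, inner_smul_right]
  rfl

lemma Res.df2 {G : ℝ → Ω → (H →L[ℂ] H)} (h : Res G) {y y' : ℝ} (hy : 0 < y) (hy' : 0 < y')
    (v : Ω) (u' u : H) :
    ‖(inner ℂ u' (G y' v (G y v u)) : ℂ) - inner ℂ u' (G y v (G y v u))‖ ≤
      |y' - y| * (‖u'‖ * (1 / y' * (1 / y * (1 / y * ‖u‖)))) := by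
  rw [h.df hy hy' v u' (G y v u), norm_mul, norm_mul, Complex.norm_I, one_mul, Complex.norm_real,
    Real.norm_eq_abs]
  refine mul_le_mul_of_nonneg_left ?_ (abs_nonneg _)
  refine (h.inn hy' v u' _).trans ?_
  refine mul_le_mul_of_nonneg_left ?_ (norm_nonneg _)
  refine mul_le_mul_of_nonneg_left ?_ (by positivity)
  refine (h.ap hy v _).trans ?_
  exact mul_le_mul_of_nonneg_left (h.ap hy v u) (by positivity)

lemma Res.measGG {G : ℝ → Ω → (H →L[ℂ] H)} (h : Res G) (u' u : H)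
    (hm : ∀ y, 0 < y → Measurable fun v => (inner ℂ u' (G y v u) : ℂ)) {y : ℝ} (hy : 0 < y) :
    Measurable fun v => (inner ℂ u' (G y v (G y v u)) : ℂ) := by
  have hs : ∀ n : ℕ, (0 : ℝ) < 1 / ((n : ℝ) + 1) := fun n => by positivity
  refine measurable_of_tendsto_metrizable
    (f := fun (n : ℕ) (v : Ω) => (((inner ℂ u' (G (y + 1 / ((n : ℝ) + 1)) v u) : ℂ) -
      inner ℂ u' (G y v u)) / (Complex.I * ((1 / ((n : ℝ) + 1) : ℝ) : ℂ)) : ℂ)) ?_ ?_
  · intro n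
    exact (((hm _ (by have := hs n; linarith)).sub (hm y hy)).div_const _)
  · rw [tendsto_pi_nhds]
    intro v
    have h1 : ∀ n : ℕ, (((inner ℂ u' (G (y + 1 / ((n : ℝ) + 1)) v u) : ℂ) -
        inner ℂ u' (G y v u)) / (Complex.I * ((1 / ((n : ℝ) + 1) : ℝ) : ℂ)) : ℂ) =
        inner ℂ u' (G (y + 1 / ((n : ℝ) + 1)) v (G y v u)) := by
      intro n
      rw [h.df hy (by have := hs n; linarith) v u' u, add_sub_cancel_left]
      have h2 : (Complex.I * ((1 / ((n : ℝ) + 1) : ℝ) : ℂ)) ≠ 0 := by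
        refine mul_ne_zero Complex.I_ne_zero ?_
        exact_mod_cast (hs n).ne'
      field_simp
    simp only [h1]
    rw [tendsto_iff_norm_sub_tendsto_zero]
    have h3 : Tendsto (fun n : ℕ => 1 / ((n : ℝ) + 1) *
        (‖u'‖ * (1 / y * (1 / y * (1 / y * ‖u‖))))) atTop (𝓝 0) := by
      have := (tendsto_one_div_add_atTop_nhds_zero_nat (𝕜 := ℝ)).mul_const
        (‖u'‖ * (1 / y * (1 / y * (1 / y * ‖u‖))))
      rwa [zero_mul] at this
    refine squeeze_zero (fun n => norm_nonneg _) (fun n => ?_) h3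
    have h4 := h.df2 hy (show 0 < y + 1 / ((n : ℝ) + 1) by have := hs n; linarith) v u' u
    rw [add_sub_cancel_left, abs_of_pos (hs n)] at h4
    refine h4.trans ?_
    refine mul_le_mul_of_nonneg_left ?_ (hs n).le
    refine mul_le_mul_of_nonneg_left ?_ (norm_nonneg _)
    refine mul_le_mul_of_nonneg_right ?_ (by positivity)
    exact one_div_le_one_div_of_le hy (by have := hs n; linarith)

lemma Res.deriv {G : ℝ → Ω → (H →L[ℂ] H)} (h : Res G) (μ : Measure Ω) [IsProbabilityMeasure μ]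
    (u' u : H) (hm : ∀ y, 0 < y → Measurable fun v => (inner ℂ u' (G y v u) : ℂ)) {y : ℝ}
    (hy : 0 < y) :
    HasDerivAt (fun y => ∫ v, (inner ℂ u' (G y v u) : ℂ) ∂μ)
      (Complex.I * ∫ v, (inner ℂ u' (G y v (G y v u)) : ℂ) ∂μ) y := by
  have hi : ∀ y, 0 < y → Integrable (fun v => (inner ℂ u' (G y v u) : ℂ)) μ := fun y hy =>
    Integrable.of_bound (hm y hy).aestronglyMeasurable _ (Eventually.of_forall fun v => h.inn hy v u' u)
  have hii : Integrable (fun v => (inner ℂ u' (G y v (G y v u)) : ℂ)) μ :=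
    Integrable.of_bound (h.measGG u' u hm hy).aestronglyMeasurable (‖u'‖ * (1 / y * (1 / y * ‖u‖)))
      (Eventually.of_forall fun v => (h.inn hy v u' _).trans (by
        refine mul_le_mul_of_nonneg_left ?_ (norm_nonneg _)
        exact mul_le_mul_of_nonneg_left (h.ap hy v u) (by positivity)))
  rw [hasDerivAt_iff_isLittleO]
  refine Asymptotics.IsBigO.trans_isLittleO (g := fun y' : ℝ => ‖y' - y‖ ^ 2) ?_
    (Asymptotics.isLittleO_pow_sub_sub y (by norm_num))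
  refine Asymptotics.IsBigO.of_bound (‖u'‖ * (2 / y * (1 / y * (1 / y * ‖u‖)))) ?_
  have hev : ∀ᶠ y' : ℝ in 𝓝 y, y / 2 < y' := lt_mem_nhds (by linarith)
  filter_upwards [hev] with y' hy'
  have hy0 : 0 < y' := by linarith
  have h1 : (∫ v, (inner ℂ u' (G y' v u) : ℂ) ∂μ) - (∫ v, (inner ℂ u' (G y v u) : ℂ) ∂μ) -
      (y' - y) • (Complex.I * ∫ v, (inner ℂ u' (G y v (G y v u)) : ℂ) ∂μ) =
      ∫ v, Complex.I * ((y' - y : ℝ) : ℂ) * ((inner ℂ u' (G y' v (G y v u)) : ℂ) -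
        inner ℂ u' (G y v (G y v u))) ∂μ := by
    rw [← integral_sub (hi y' hy0) (hi y hy)]
    have h2 : (y' - y) • (Complex.I * ∫ v, (inner ℂ u' (G y v (G y v u)) : ℂ) ∂μ) =
        ∫ v, Complex.I * ((y' - y : ℝ) : ℂ) * (inner ℂ u' (G y v (G y v u)) : ℂ) ∂μ := by
      rw [integral_const_mul, Complex.real_smul]
      ring
    have hA : Integrable (fun v => (inner ℂ u' (G y' v u) : ℂ) - inner ℂ u' (G y v u)) μ :=
      (hi y' hy0).sub (hi y hy)
    have hB : Integrable (fun v => Complex.I * ((y' - y : ℝ) : ℂ) *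
        (inner ℂ u' (G y v (G y v u)) : ℂ)) μ := hii.const_mul _
    rw [h2, ← integral_sub hA hB]
    refine integral_congr_ae (Eventually.of_forall fun v => ?_)
    show (inner ℂ u' (G y' v u) : ℂ) - inner ℂ u' (G y v u) - _ = _
    rw [h.df hy hy0 v u' u]
    ring
  rw [h1]
  have h3 : ‖∫ v, Complex.I * ((y' - y : ℝ) : ℂ) * ((inner ℂ u' (G y' v (G y v u)) : ℂ) -
        inner ℂ u' (G y v (G y v u))) ∂μ‖ ≤
      |y' - y| * (|y' - y| * (‖u'‖ * (1 / y' * (1 / y * (1 / y * ‖u‖))))) * μ.real Set.univ := by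
    refine norm_integral_le_of_norm_le_const (Eventually.of_forall fun v => ?_)
    rw [norm_mul, norm_mul, Complex.norm_I, one_mul, Complex.norm_real, Real.norm_eq_abs]
    exact mul_le_mul_of_nonneg_left (h.df2 hy hy0 v u' u) (abs_nonneg _)
  rw [probReal_univ, mul_one] at h3
  refine h3.trans ?_
  rw [norm_pow, norm_norm, Real.norm_eq_abs]
  have h4 : 1 / y' ≤ 2 / y := by
    rw [div_le_div_iff₀ hy0 hy]
    linarith
  have h5 : ‖u'‖ * (1 / y' * (1 / y * (1 / y * ‖u‖))) ≤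
      ‖u'‖ * (2 / y * (1 / y * (1 / y * ‖u‖))) :=
    mul_le_mul_of_nonneg_left (mul_le_mul_of_nonneg_right h4 (by positivity)) (norm_nonneg _)
  calc |y' - y| * (|y' - y| * (‖u'‖ * (1 / y' * (1 / y * (1 / y * ‖u‖))))) =
      (‖u'‖ * (1 / y' * (1 / y * (1 / y * ‖u‖)))) * |y' - y| ^ 2 := by ring
    _ ≤ _ := mul_le_mul_of_nonneg_right h5 (by positivity)

/-- integration of the bound for the derivative -/
lemma growth (F F' : ℝ → ℂ) (C a b : ℝ) (hC : 0 ≤ C) (ha : 0 < a) (hab : a ≤ b)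
    (hF : ∀ y ∈ Set.Icc a b, HasDerivAt F (F' y) y)
    (hb : ∀ y ∈ Set.Icc a b, ‖F' y‖ ≤ C * y ^ (-(3 / 4) : ℝ)) :
    ‖F b - F a‖ ≤ 4 * C * b ^ (1 / 4 : ℝ) := by
  have hpow : ∀ y : ℝ, 0 < y → HasDerivAt (fun y : ℝ => 4 * C * (y ^ (1 / 4 : ℝ) - a ^ (1 / 4 : ℝ)))
      (C * y ^ (-(3 / 4) : ℝ)) y := by
    intro y hy
    have h1 := Real.hasDerivAt_rpow_const (x := y) (p := 1 / 4) (Or.inl hy.ne')
    have h2 := (h1.sub_const (a ^ (1 / 4 : ℝ))).const_mul (4 * C)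
    refine h2.congr_deriv ?_
    rw [show (1 / 4 : ℝ) - 1 = -(3 / 4) by norm_num]
    ring
  have h1 := image_norm_le_of_norm_deriv_right_le_deriv_boundary' (f := fun y => F y - F a)
    (f' := F') (a := a) (b := b)
    (B := fun y : ℝ => 4 * C * (y ^ (1 / 4 : ℝ) - a ^ (1 / 4 : ℝ)))
    (B' := fun y => C * y ^ (-(3 / 4) : ℝ))
    (fun y hy => ((hF y hy).sub_const (F a)).continuousAt.continuousWithinAt)
    (fun y hy => ((hF y (Set.Ico_subset_Icc_self hy)).sub_const (F a)).hasDerivWithinAt)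
    (by simp)
    (fun y hy => (hpow y (ha.trans_le hy.1)).continuousAt.continuousWithinAt)
    (fun y hy => (hpow y (ha.trans_le hy.1)).hasDerivWithinAt)
    (fun y hy => hb y (Set.Ico_subset_Icc_self hy)) (Set.right_mem_Icc.2 hab)
  refine h1.trans ?_
  have h2 : 0 ≤ a ^ (1 / 4 : ℝ) := Real.rpow_nonneg ha.le _
  have h3 : 0 ≤ 4 * C := by linarith
  nlinarith

end Abs

/-! ## B. Finitely supported vectors -/

section Fin

variable {Γ : Type} [DecidableEq Γ]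

/-- a finitely supported vector -/
def fv (s : Finset Γ) (c : Γ → ℂ) : l2 Γ := ∑ i ∈ s, lp.single 2 i (c i)

lemma inner_fv (s : Finset Γ) (c : Γ → ℂ) (w : l2 Γ) :
    (inner ℂ (fv s c) w : ℂ) = ∑ i ∈ s, (starRingEnd ℂ) (c i) * w i := by
  rw [fv, sum_inner]
  refine Finset.sum_congr rfl fun i _ => ?_
  rw [lp.inner_single_left]
  simp [mul_comm]

lemma norm_le_of_fv (w : l2 Γ) (K : ℝ) (hK : 0 ≤ K)
    (h : ∀ s c, ‖(inner ℂ (fv s c) w : ℂ)‖ ≤ K * ‖fv s c‖) : ‖w‖ ≤ K := by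
  have h1 : Tendsto (fun s : Finset Γ => fv s (fun i => w i)) atTop (𝓝 w) :=
    lp.hasSum_single (by norm_num) w
  have h2 : Tendsto (fun s : Finset Γ => ‖(inner ℂ (fv s (fun i => w i)) w : ℂ)‖) atTop
      (𝓝 ‖(inner ℂ w w : ℂ)‖) := (h1.inner tendsto_const_nhds).norm
  have h3 : Tendsto (fun s : Finset Γ => K * ‖fv s (fun i => w i)‖) atTop (𝓝 (K * ‖w‖)) :=
    h1.norm.const_mul K
  have h4 : ‖(inner ℂ w w : ℂ)‖ ≤ K * ‖w‖ :=
    le_of_tendsto_of_tendsto h2 h3 (Eventually.of_forall fun s => h s _)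
  rw [inner_self_eq_norm_sq_to_K] at h4
  have h5 : ‖w‖ ^ 2 ≤ K * ‖w‖ := by
    have h6 : ‖((‖w‖ : ℂ)) ^ 2‖ = ‖w‖ ^ 2 := by
      rw [norm_pow, Complex.norm_real, norm_norm]
    exact h6 ▸ h4
  rcases (norm_nonneg w).eq_or_lt with h0 | h0
  · rw [← h0]
    exact hK
  · nlinarith

end Fin

/-! ## C. The operators -/

section Op

variable {d : ℕ}

lemma dia_ap (hD : S_DIA) {Γ : Type} (c : Γ → ℂ) (K : ℝ) (hK : 0 < K) (hc : ∀ x, ‖c x‖ ≤ K)
    (u : l2 Γ) (x : Γ) : dia c u x = c x * u x := by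
  have h : ∃ D : l2 Γ →L[ℂ] l2 Γ, ∀ u x, D u x = c x * u x := by
    have h1 := (hD Γ (fun x => c x / K) (by
      intro x
      rw [norm_div, Complex.norm_real, Real.norm_of_nonneg hK.le, div_le_one hK]
      exact hc x)).1
    refine ⟨(K : ℂ) • dia (fun x => c x / K), fun u x => ?_⟩
    have hK' : (K : ℂ) ≠ 0 := by exact_mod_cast hK.ne'
    have h2 : (((K : ℂ) • dia (fun x => c x / K)) u) x = (K : ℂ) * (dia (fun x => c x / K) u x) :=
      rfl
    rw [h2, h1]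
    field_simp
  unfold dia
  rw [dif_pos h]
  exact Classical.choose_spec h u x

lemma xs_im (γ : ℝ) (ζ : ℂ) (k : UnitAddTorus (Fin d)) : (xs d γ ζ k).im ≤ -ζ.im := by
  have h : xs d γ ζ k = ((γ * lap d k : ℝ) : ℂ) - ζ := rfl
  rw [h, Complex.sub_im, Complex.ofReal_im, zero_sub]

lemma xs_add (γ : ℝ) (ζ ζ' : ℂ) : xs d γ ζ = xs d γ ζ' + (ζ' - ζ) • 1 := by
  ext k
  have h : xs d γ ζ k = ((γ * lap d k : ℝ) : ℂ) - ζ := rfl
  have h' : xs d γ ζ' k = ((γ * lap d k : ℝ) : ℂ) - ζ' := rfl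
  rw [ContinuousMap.add_apply, ContinuousMap.smul_apply, ContinuousMap.one_apply, h, h',
    smul_eq_mul]
  ring

lemma opr_xs (hO : S_OPR) (γ : ℝ) (ζ ζ' : ℂ) :
    opr (xs d γ ζ) = opr (xs d γ ζ') + (ζ' - ζ) • 1 := by
  have h1 := (hO d (xs d γ ζ') ((ζ' - ζ) • 1)).2.2.2.1
  have h2 := (hO d (1 : C(UnitAddTorus (Fin d), ℂ)) 1).2.2.2.2.1 (ζ' - ζ)
  have h3 := (hO d (1 : C(UnitAddTorus (Fin d), ℂ)) 1).2.2.2.2.2.1
  rw [xs_add γ ζ ζ', h1, h2, h3]

lemma res_id {E : Type*} [Ring E] (A A' G G' : E) (h : A * G = 1) (h' : G' * A' = 1) :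
    G' - G = G' * (A - A') * G := by
  rw [mul_sub, sub_mul, mul_assoc, h, h', mul_one, one_mul]

/-- the complex symbol `γ lap` -/
def lc (d : ℕ) (γ : ℝ) : C(UnitAddTorus (Fin d), ℂ) where
  toFun k := ((γ * lap d k : ℝ) : ℂ)
  continuous_toFun := by fun_prop

lemma lc_norm (γ : ℝ) (hγ : 0 ≤ γ) : ‖lc d γ‖ ≤ 4 * d * γ := by
  rw [ContinuousMap.norm_le _ (by positivity)]
  intro k
  have h : lc d γ k = ((γ * lap d k : ℝ) : ℂ) := rfl
  rw [h, Complex.norm_real, Real.norm_eq_abs, abs_mul, abs_of_nonneg hγ]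
  have h1 : |lap d k| ≤ 4 * d := by
    have h2 : lap d k = ∑ i, (2 - 2 * (fourier 1 (k i)).re) := rfl
    rw [h2]
    refine (Finset.abs_sum_le_sum_abs _ _).trans ?_
    calc ∑ i : Fin d, |2 - 2 * (fourier 1 (k i)).re| ≤ ∑ _i : Fin d, (4 : ℝ) := by
          refine Finset.sum_le_sum fun i _ => ?_
          have h3 : |(fourier 1 (k i)).re| ≤ 1 := by
            refine (Complex.abs_re_le_norm _).trans (le_of_eq ?_)
            exact Circle.norm_coe _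
          have h4 := abs_le.1 h3
          rw [abs_le]
          constructor <;> linarith
      _ = 4 * d := by
          rw [Finset.sum_const, Finset.card_univ, Fintype.card_fin, nsmul_eq_mul, mul_comm]
  calc γ * |lap d k| ≤ γ * (4 * d) := mul_le_mul_of_nonneg_left h1 hγ
    _ = 4 * d * γ := by ring

lemma xs_lc (γ : ℝ) (ζ : ℂ) : xs d γ ζ = xs d 0 ζ + lc d γ := by
  ext k
  have h : xs d γ ζ k = ((γ * lap d k : ℝ) : ℂ) - ζ := rfl
  have h' : xs d 0 ζ k = ((0 * lap d k : ℝ) : ℂ) - ζ := rfl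
  have h'' : lc d γ k = ((γ * lap d k : ℝ) : ℂ) := rfl
  rw [ContinuousMap.add_apply, h, h', h'', zero_mul, Complex.ofReal_zero]
  ring

lemma xs_zero (hO : S_OPR) (ζ : ℂ) : opr (xs d 0 ζ) = (-ζ) • 1 := by
  have h0 : xs d 0 ζ = (-ζ) • 1 := by
    ext k
    have h' : xs d 0 ζ k = ((0 * lap d k : ℝ) : ℂ) - ζ := rfl
    rw [h', ContinuousMap.smul_apply, ContinuousMap.one_apply, zero_mul, Complex.ofReal_zero,
      smul_eq_mul]
    ring
  have h2 := (hO d (1 : C(UnitAddTorus (Fin d), ℂ)) 1).2.2.2.2.1 (-ζ)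
  have h3 := (hO d (1 : C(UnitAddTorus (Fin d), ℂ)) 1).2.2.2.2.2.1
  rw [h0, h2, h3]

variable {w : ℝ} (hw : 0 < w)

/-- the resolvents on a vertical line -/
lemma res_line (hG : S_GR) (hO : S_OPR) (hw : 0 < w) (γ x : ℝ) :
    Res (fun (y : ℝ) (v : (Fin d → ℤ) → ℝ) => gr w (xs d γ ⟨x, y⟩) v) where
  bd y hy v := ((hG d w y (xs d γ ⟨x, y⟩) hw.le hy (fun k => xs_im γ _ k)).1 v).2.2
  id y y' hy hy' v := by
    have h1 := ((hG d w y (xs d γ ⟨x, y⟩) hw.le hy (fun k => xs_im γ _ k)).1 v).1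
    have h2 := ((hG d w y' (xs d γ ⟨x, y'⟩) hw.le hy' (fun k => xs_im γ _ k)).1 v).2.1
    have h3 := res_id _ _ _ _ h1 h2
    rw [h3]
    have h4 : vcl w v + opr (xs d γ ⟨x, y⟩) - (vcl w v + opr (xs d γ ⟨x, y'⟩)) =
        (Complex.I * ((y' - y : ℝ) : ℂ)) • (1 : l2 (Fin d → ℤ) →L[ℂ] l2 (Fin d → ℤ)) := by
      rw [opr_xs hO γ ⟨x, y⟩ ⟨x, y'⟩]
      have h5 : (⟨x, y'⟩ : ℂ) - ⟨x, y⟩ = Complex.I * ((y' - y : ℝ) : ℂ) := by
        apply Complex.ext <;> simp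
      rw [h5]
      abel
    rw [h4, mul_smul_comm, mul_one, smul_mul_assoc]

/-- the resolvent without hopping -/
lemma gr_zero (hG : S_GR) (hO : S_OPR) (hD : S_DIA) (hw : 0 < w) (ζ : ℂ) (hζ : 0 < ζ.im)
    (v : (Fin d → ℤ) → ℝ) (u : l2 (Fin d → ℤ)) (x : Fin d → ℤ) :
    gr w (xs d 0 ζ) v u x = u x * (1 / (((max (-w) (min w (v x)) : ℝ) : ℂ) - ζ)) := by
  have h1 := ((hG d w ζ.im (xs d 0 ζ) hw.le hζ (fun k => xs_im 0 _ k)).1 v).1
  have h2 := congrArg (fun T : l2 (Fin d → ℤ) →L[ℂ] l2 (Fin d → ℤ) => T u x) h1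
  have h3 : ((vcl w v + opr (xs d 0 ζ)) * gr w (xs d 0 ζ) v) u x =
      dia (fun x => ((max (-w) (min w (v x)) : ℝ) : ℂ)) (gr w (xs d 0 ζ) v u) x +
        (opr (xs d 0 ζ)) (gr w (xs d 0 ζ) v u) x := rfl
  have h4 : ∀ x, ‖((max (-w) (min w (v x)) : ℝ) : ℂ)‖ ≤ w := by
    intro x
    rw [Complex.norm_real, Real.norm_eq_abs, abs_le]
    exact ⟨le_max_left _ _, max_le (by linarith) (min_le_left _ _)⟩
  rw [xs_zero hO ζ] at h3
  have h5 : ((-ζ) • (1 : l2 (Fin d → ℤ) →L[ℂ] l2 (Fin d → ℤ))) (gr w (xs d 0 ζ) v u) x =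
      -ζ * gr w (xs d 0 ζ) v u x := rfl
  rw [h5, dia_ap hD _ w hw h4] at h3
  have h6 : (((max (-w) (min w (v x)) : ℝ) : ℂ) - ζ) * gr w (xs d 0 ζ) v u x = u x := by
    have h7 : ((1 : l2 (Fin d → ℤ) →L[ℂ] l2 (Fin d → ℤ)) u) x = u x := rfl
    rw [← h7, ← h2]
    show _ = ((vcl w v + opr (xs d 0 ζ)) * gr w (xs d 0 ζ) v) u x
    rw [xs_zero hO ζ, h3]
    ring
  have h8 : (((max (-w) (min w (v x)) : ℝ) : ℂ) - ζ) ≠ 0 := by
    intro h9
    have h10 := congrArg Complex.im h9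
    rw [Complex.sub_im, Complex.ofReal_im, Complex.zero_im] at h10
    linarith
  field_simp
  linear_combination h6

lemma res_meas (hG : S_GR) (hw : 0 < w) (γ : ℝ) (ζ : ℂ) (hζ : 0 < ζ.im) (s : Finset (Fin d → ℤ))
    (c : (Fin d → ℤ) → ℂ) (u : l2 (Fin d → ℤ)) :
    Measurable fun v => (inner ℂ (fv s c) (gr w (xs d γ ζ) v u) : ℂ) := by
  simp only [inner_fv]
  exact Finset.measurable_sum _ fun i _ =>
    ((hG d w ζ.im (xs d γ ζ) hw.le hζ (fun k => xs_im γ _ k)).2 u i).const_mul _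

lemma res_bd (hG : S_GR) (hw : 0 < w) (γ : ℝ) (ζ : ℂ) (hζ : 0 < ζ.im)
    (u' u : l2 (Fin d → ℤ)) (v : (Fin d → ℤ) → ℝ) :
    ‖gr w (xs d γ ζ) v u‖ ≤ 1 / ζ.im * ‖u‖ ∧
    ‖(inner ℂ u' (gr w (xs d γ ζ) v u) : ℂ)‖ ≤ ‖u'‖ * (1 / ζ.im * ‖u‖) := by
  have h1 := ((hG d w ζ.im (xs d γ ζ) hw.le hζ (fun k => xs_im γ _ k)).1 v).2.2
  have h2 : ‖gr w (xs d γ ζ) v u‖ ≤ 1 / ζ.im * ‖u‖ :=
    (ContinuousLinearMap.le_opNorm _ _).trans (mul_le_mul_of_nonneg_right h1 (norm_nonneg _))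
  exact ⟨h2, (norm_inner_le_norm _ _).trans (mul_le_mul_of_nonneg_left h2 (norm_nonneg _))⟩

lemma res_int (hG : S_GR) (hw : 0 < w) [IsProbabilityMeasure (unif w)] (γ : ℝ) (ζ : ℂ)
    (hζ : 0 < ζ.im) (s : Finset (Fin d → ℤ)) (c : (Fin d → ℤ) → ℂ) (u : l2 (Fin d → ℤ)) :
    Integrable (fun v => (inner ℂ (fv s c) (gr w (xs d γ ζ) v u) : ℂ))
      (Pn (unif w) (Fin d → ℤ)) :=
  Integrable.of_bound (res_meas hG hw γ ζ hζ s c u).aestronglyMeasurable _
    (Eventually.of_forall fun v => (res_bd hG hw γ ζ hζ (fv s c) u v).2)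

/-- the transform as an integral over the product space -/
lemma int_site (hw : 0 < w) [IsProbabilityMeasure (unif w)] (ζ : ℂ) (hζ : 0 < ζ.im)
    (x : Fin d → ℤ) :
    ∫ v, (1 / (((max (-w) (min w (v x)) : ℝ) : ℂ) - ζ)) ∂(Pn (unif w) (Fin d → ℤ)) = hu w ζ := by
  have hg : Measurable fun t : ℝ => (1 / (((max (-w) (min w t) : ℝ) : ℂ) - ζ)) := by
    have h1 : Measurable fun t : ℝ => ((max (-w) (min w t) : ℝ) : ℂ) :=
      Complex.measurable_ofReal.comp (measurable_const.max (measurable_const.min measurable_id))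
    exact (h1.sub_const ζ).const_div 1
  have hmp := measurePreserving_eval_infinitePi (fun _ : Fin d → ℤ => unif w) x
  have h1 : ∫ v, (1 / (((max (-w) (min w (v x)) : ℝ) : ℂ) - ζ)) ∂(Pn (unif w) (Fin d → ℤ)) =
      ∫ t, (1 / (((max (-w) (min w t) : ℝ) : ℂ) - ζ)) ∂(unif w) := by
    have h2 := integral_map (μ := Measure.infinitePi fun _ : Fin d → ℤ => unif w)
      hmp.measurable.aemeasurable
      (f := fun t : ℝ => (1 / (((max (-w) (min w t) : ℝ) : ℂ) - ζ))) hg.aestronglyMeasurable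
    rw [hmp.map_eq] at h2
    exact h2.symm
  rw [h1, hu]
  refine integral_congr_ae ?_
  have h2 : ∀ᵐ t ∂(unif w), t ∈ Set.Icc (-w) w := by
    unfold unif
    exact Measure.ae_smul_measure (ae_restrict_mem measurableSet_Icc) _
  filter_upwards [h2] with t ht
  rw [min_eq_right ht.2, max_eq_right ht.1]

lemma int_gr_zero (hG : S_GR) (hO : S_OPR) (hD : S_DIA) (hw : 0 < w)
    [IsProbabilityMeasure (unif w)] (ζ : ℂ) (hζ : 0 < ζ.im) (s : Finset (Fin d → ℤ))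
    (c : (Fin d → ℤ) → ℂ) (u : l2 (Fin d → ℤ)) :
    ∫ v, (inner ℂ (fv s c) (gr w (xs d 0 ζ) v u) : ℂ) ∂(Pn (unif w) (Fin d → ℤ)) =
      hu w ζ * inner ℂ (fv s c) u := by
  have hgm : ∀ i : Fin d → ℤ, Measurable fun v : (Fin d → ℤ) → ℝ =>
      (1 / (((max (-w) (min w (v i)) : ℝ) : ℂ) - ζ)) := by
    intro i
    have h1 : Measurable fun v : (Fin d → ℤ) → ℝ => ((max (-w) (min w (v i)) : ℝ) : ℂ) :=
      Complex.measurable_ofReal.comp
        (measurable_const.max (measurable_const.min (measurable_pi_apply i)))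
    exact (h1.sub_const ζ).const_div 1
  have hgi : ∀ i : Fin d → ℤ, Integrable (fun v : (Fin d → ℤ) → ℝ =>
      (1 / (((max (-w) (min w (v i)) : ℝ) : ℂ) - ζ))) (Pn (unif w) (Fin d → ℤ)) := by
    intro i
    refine Integrable.of_bound (hgm i).aestronglyMeasurable (1 / ζ.im)
      (Eventually.of_forall fun v => ?_)
    rw [norm_div, norm_one]
    refine one_div_le_one_div_of_le hζ ?_
    have h1 := Complex.abs_im_le_norm ((((max (-w) (min w (v i)) : ℝ) : ℂ) - ζ))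
    rw [Complex.sub_im, Complex.ofReal_im, zero_sub, abs_neg, abs_of_pos hζ] at h1
    exact h1
  have h1 : ∀ v, (inner ℂ (fv s c) (gr w (xs d 0 ζ) v u) : ℂ) =
      ∑ i ∈ s, ((starRingEnd ℂ) (c i) * u i) *
        (1 / (((max (-w) (min w (v i)) : ℝ) : ℂ) - ζ)) := by
    intro v
    rw [inner_fv]
    refine Finset.sum_congr rfl fun i _ => ?_
    rw [gr_zero hG hO hD hw ζ hζ v u i, mul_assoc]
  simp only [h1]
  rw [integral_finsetSum _ fun i _ => (hgi i).const_mul _, inner_fv, Finset.mul_sum]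
  refine Finset.sum_congr rfl fun i _ => ?_
  rw [integral_const_mul, int_site hw ζ hζ i]
  ring

lemma est_far (hG : S_GR) (hO : S_OPR) (hD : S_DIA) (hw : 0 < w)
    [IsProbabilityMeasure (unif w)] (γ : ℝ) (hγ : 0 ≤ γ) (ζ : ℂ) (hζ : 0 < ζ.im)
    (s : Finset (Fin d → ℤ)) (c : (Fin d → ℤ) → ℂ) (u : l2 (Fin d → ℤ)) :
    ‖(∫ v, (inner ℂ (fv s c) (gr w (xs d γ ζ) v u) : ℂ) ∂(Pn (unif w) (Fin d → ℤ))) -
      hu w ζ * inner ℂ (fv s c) u‖ ≤ 4 * d * γ / ζ.im ^ 2 * (‖fv s c‖ * ‖u‖) := by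
  rw [← int_gr_zero hG hO hD hw ζ hζ s c u,
    ← integral_sub (res_int hG hw γ ζ hζ s c u) (res_int hG hw 0 ζ hζ s c u)]
  have h1 : ∀ v, ‖(inner ℂ (fv s c) (gr w (xs d γ ζ) v u) : ℂ) -
      inner ℂ (fv s c) (gr w (xs d 0 ζ) v u)‖ ≤ 4 * d * γ / ζ.im ^ 2 * (‖fv s c‖ * ‖u‖) := by
    intro v
    have h2 := ((hG d w ζ.im (xs d γ ζ) hw.le hζ (fun k => xs_im γ _ k)).1 v)
    have h3 := ((hG d w ζ.im (xs d 0 ζ) hw.le hζ (fun k => xs_im 0 _ k)).1 v)
    have h4 := res_id _ _ _ _ h3.1 h2.2.1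
    have h5 : vcl w v + opr (xs d 0 ζ) - (vcl w v + opr (xs d γ ζ)) = -opr (lc d γ) := by
      have h6 := (hO d (xs d 0 ζ) (lc d γ)).2.2.2.1
      rw [xs_lc γ ζ, h6]
      abel
    rw [h5] at h4
    have h7 : ‖gr w (xs d γ ζ) v - gr w (xs d 0 ζ) v‖ ≤ 1 / ζ.im * (4 * d * γ) * (1 / ζ.im) := by
      rw [h4]
      refine (norm_mul_le _ _).trans ?_
      refine mul_le_mul ?_ h3.2.2 (norm_nonneg _) (by positivity)
      refine (norm_mul_le _ _).trans ?_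
      refine mul_le_mul h2.2.2 ?_ (norm_nonneg _) (by positivity)
      rw [norm_neg]
      exact ((hO d (lc d γ) 1).2.1).trans (lc_norm γ hγ)
    rw [← inner_sub_right, ← sub_apply]
    refine (norm_inner_le_norm _ _).trans ?_
    have h8 : ‖(gr w (xs d γ ζ) v - gr w (xs d 0 ζ) v) u‖ ≤
        1 / ζ.im * (4 * d * γ) * (1 / ζ.im) * ‖u‖ :=
      (ContinuousLinearMap.le_opNorm _ _).trans (mul_le_mul_of_nonneg_right h7 (norm_nonneg _))
    calc ‖fv s c‖ * ‖(gr w (xs d γ ζ) v - gr w (xs d 0 ζ) v) u‖ ≤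
        ‖fv s c‖ * (1 / ζ.im * (4 * d * γ) * (1 / ζ.im) * ‖u‖) :=
          mul_le_mul_of_nonneg_left h8 (norm_nonneg _)
      _ = _ := by
          field_simp
  have h2 := norm_integral_le_of_norm_le_const (μ := Pn (unif w) (Fin d → ℤ))
    (Eventually.of_forall h1)
  rwa [probReal_univ, mul_one] at h2

end Op

/-! ## D. The theorem -/

theorem main : S_GR → S_DIA → S_OPR → S_SYMB → S_U1 → S_OG → S_HU → S_N1 := by
  intro hG hD hO hS _ hOG hHU d w θ _ hw hθ0 hθ1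
  obtain ⟨C1, g1, hC1, hg1, hO1⟩ := hOG d w θ hw hθ0 hθ1
  obtain ⟨C2, c2, hC2, -, -, hH2⟩ := hHU w θ hw hθ0 hθ1
  refine ⟨4 * C1 + 4 * d + C2, min g1 1, ?_, lt_min hg1 one_pos, ?_⟩
  · have : (0 : ℝ) ≤ d := Nat.cast_nonneg d
    linarith
  intro γ hγ0 hγ1 ζ hre him him2 N hN k
  obtain ⟨g, hg⟩ : ∃ g : ℝ, g = γ ^ (1 / 12 : ℝ) := ⟨_, rfl⟩
  have hgp : 0 < g := by rw [hg]; exact Real.rpow_pos_of_pos hγ0 _
  have hγg : γ = g ^ 12 := by
    rw [hg, ← Real.rpow_natCast, ← Real.rpow_mul hγ0.le]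
    norm_num
  have hg1' : g ≤ 1 := by
    rw [hg]
    exact Real.rpow_le_one hγ0.le (hγ1.trans (min_le_right _ _)) (by norm_num)
  have hg4 : g ^ 4 ≤ g := by
    calc g ^ 4 = g ^ 3 * g := by ring
      _ ≤ 1 * g := mul_le_mul_of_nonneg_right (pow_le_one₀ hgp.le hg1') hgp.le
      _ = g := one_mul g
  have hg4' : g ^ 4 ≤ 1 := pow_le_one₀ hgp.le hg1'
  rw [← hg]
  -- the basic estimate
  have key : ∀ (s : Finset (Fin d → ℤ)) (c : (Fin d → ℤ) → ℂ) (u : l2 (Fin d → ℤ)),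
      ‖(inner ℂ (fv s c) (opr N u) : ℂ) - hu w ζ * inner ℂ (fv s c) u‖ ≤
        (4 * C1 + 4 * d + C2) * g * (‖fv s c‖ * ‖u‖) := by
    intro s c u
    obtain ⟨P, hP⟩ : ∃ P : ℝ, P = ‖fv s c‖ * ‖u‖ := ⟨_, rfl⟩
    have hP0 : 0 ≤ P := by rw [hP]; positivity
    have hinn : ‖(inner ℂ (fv s c) u : ℂ)‖ ≤ P := by
      rw [hP]
      exact norm_inner_le_norm _ _
    obtain ⟨F, hF⟩ : ∃ F : ℝ → ℂ, F = fun y => ∫ v, (inner ℂ (fv s c)
        (gr w (xs d γ ⟨ζ.re, y⟩) v u) : ℂ) ∂(Pn (unif w) (Fin d → ℤ)) := ⟨_, rfl⟩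
    have hF0 : (inner ℂ (fv s c) (opr N u) : ℂ) = F ζ.im := by
      rw [hF]
      show _ = ∫ v, (inner ℂ (fv s c) (gr w (xs d γ ⟨ζ.re, ζ.im⟩) v u) : ℂ)
        ∂(Pn (unif w) (Fin d → ℤ))
      rw [Complex.eta, inner_fv]
      simp only [inner_fv]
      rw [integral_finsetSum]
      · refine Finset.sum_congr rfl fun i _ => ?_
        rw [integral_const_mul, hN u i]
      · intro i _
        refine Integrable.const_mul ?_ _
        refine Integrable.of_bound ((hG d w ζ.im (xs d γ ζ) hw.le him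
          (fun k => xs_im γ _ k)).2 u i).aestronglyMeasurable (1 / ζ.im * ‖u‖)
          (Eventually.of_forall fun v => ?_)
        exact (lp.norm_apply_le_norm (by norm_num) _ i).trans (res_bd hG hw γ ζ him 0 u v).1
    have hfar : ∀ y : ℝ, g ^ 4 ≤ y →
        ‖F y - hu w ⟨ζ.re, y⟩ * inner ℂ (fv s c) u‖ ≤ 4 * d * g * P := by
      intro y hy
      have hy0 : 0 < y := (pow_pos hgp 4).trans_le hy
      have h1 := est_far hG hO hD hw γ hγ0.le (⟨ζ.re, y⟩ : ℂ) hy0 s c u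
      rw [hF, hP]
      refine h1.trans ?_
      refine mul_le_mul_of_nonneg_right ?_ (by positivity)
      show 4 * d * γ / y ^ 2 ≤ 4 * d * g
      rw [div_le_iff₀ (by positivity), hγg]
      have h2 : g ^ 8 ≤ y ^ 2 := by
        calc g ^ 8 = (g ^ 4) ^ 2 := by ring
          _ ≤ y ^ 2 := pow_le_pow_left₀ (by positivity) hy 2
      calc 4 * d * g ^ 12 = (4 * d * g ^ 4) * g ^ 8 := by ring
        _ ≤ (4 * d * g) * y ^ 2 := by
            refine mul_le_mul ?_ h2 (by positivity) (by positivity)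
            exact mul_le_mul_of_nonneg_left hg4 (by positivity)
    rw [hF0, ← hP]
    by_cases hcase : g ^ 4 ≤ ζ.im
    · have h1 := hfar ζ.im hcase
      rw [Complex.eta] at h1
      refine h1.trans ?_
      have h2 : 4 * (d : ℝ) * g ≤ (4 * C1 + 4 * d + C2) * g :=
        mul_le_mul_of_nonneg_right (by linarith) hgp.le
      exact mul_le_mul_of_nonneg_right h2 hP0
    · push Not at hcase
      have h1 := hfar (g ^ 4) le_rfl
      -- growth
      have hres := res_line (d := d) hG hO hw γ ζ.re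
      have h2 : ‖F (g ^ 4) - F ζ.im‖ ≤ 4 * (C1 * P) * (g ^ 4) ^ (1 / 4 : ℝ) := by
        refine growth F (fun y => Complex.I * ∫ v, (inner ℂ (fv s c)
          (gr w (xs d γ ⟨ζ.re, y⟩) v (gr w (xs d γ ⟨ζ.re, y⟩) v u)) : ℂ)
            ∂(Pn (unif w) (Fin d → ℤ))) (C1 * P) ζ.im (g ^ 4) (by positivity) him hcase.le ?_ ?_
        · intro y hy
          rw [hF]
          exact hres.deriv (Pn (unif w) (Fin d → ℤ)) (fv s c) u
            (fun y hy => res_meas hG hw γ _ hy s c u) (him.trans_le hy.1)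
        · intro y hy
          have hy0 : 0 < y := him.trans_le hy.1
          have h3 := hO1 γ hγ0 (hγ1.trans (min_le_left _ _)) ⟨ζ.re, y⟩ hre hy0
            (by show y ≤ 2; linarith [hy.2]) u (fv s c)
          rw [norm_mul, Complex.norm_I, one_mul]
          refine h3.trans (le_of_eq ?_)
          rw [hP]
          ring
      have h3 : ((g ^ 4) ^ (1 / 4 : ℝ) : ℝ) = g := by
        rw [← Real.rpow_natCast g 4, ← Real.rpow_mul hgp.le]
        norm_num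
      rw [h3] at h2
      have h4 : ‖hu w ⟨ζ.re, g ^ 4⟩ - hu w ζ‖ ≤ C2 * g := by
        have h5 := hH2 ⟨ζ.re, g ^ 4⟩ ζ hre (by positivity) (by show g ^ 4 ≤ 2; linarith) hre him
          him2
        refine h5.trans (mul_le_mul_of_nonneg_left ?_ (by linarith))
        have h6 : ∀ Y : ℝ, (⟨ζ.re, Y⟩ : ℂ) - ζ = Complex.I * ((Y - ζ.im : ℝ) : ℂ) := by
          intro Y
          apply Complex.ext <;> simp
        rw [h6 (g ^ 4), norm_mul, Complex.norm_I, one_mul, Complex.norm_real, Real.norm_eq_abs,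
          abs_of_pos (by linarith)]
        linarith
      have h5 : F ζ.im - hu w ζ * inner ℂ (fv s c) u =
          -(F (g ^ 4) - F ζ.im) + (F (g ^ 4) - hu w ⟨ζ.re, g ^ 4⟩ * inner ℂ (fv s c) u) +
            (hu w ⟨ζ.re, g ^ 4⟩ - hu w ζ) * inner ℂ (fv s c) u := by ring
      rw [h5]
      have h6 : ‖(hu w ⟨ζ.re, g ^ 4⟩ - hu w ζ) * (inner ℂ (fv s c) u : ℂ)‖ ≤ C2 * g * P := by
        rw [norm_mul]
        exact mul_le_mul h4 hinn (norm_nonneg _) (by positivity)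
      have h7 := norm_add₃_le (a := -(F (g ^ 4) - F ζ.im))
        (b := F (g ^ 4) - hu w ⟨ζ.re, g ^ 4⟩ * inner ℂ (fv s c) u)
        (c := (hu w ⟨ζ.re, g ^ 4⟩ - hu w ζ) * inner ℂ (fv s c) u)
      rw [norm_neg] at h7
      refine h7.trans ?_
      calc _ ≤ 4 * (C1 * P) * g + 4 * d * g * P + C2 * g * P := add_le_add (add_le_add h2 h1) h6
        _ = _ := by ring
  -- the symbol
  obtain ⟨M, hM⟩ : ∃ M : C(UnitAddTorus (Fin d), ℂ), M = N + (-hu w ζ) • 1 := ⟨_, rfl⟩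
  have hMo : opr M = opr N + (-hu w ζ) • 1 := by
    have h1 := (hO d N ((-hu w ζ) • 1)).2.2.2.1
    have h2 := (hO d (1 : C(UnitAddTorus (Fin d), ℂ)) 1).2.2.2.2.1 (-hu w ζ)
    have h3 := (hO d (1 : C(UnitAddTorus (Fin d), ℂ)) 1).2.2.2.2.2.1
    rw [hM, h1, h2, h3]
  have hK0 : 0 ≤ (4 * C1 + 4 * d + C2) * g := by positivity
  have hMn : ‖opr M‖ ≤ (4 * C1 + 4 * d + C2) * g := by
    refine ContinuousLinearMap.opNorm_le_bound _ hK0 fun u => ?_
    refine norm_le_of_fv _ _ (by positivity) fun s c => ?_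
    have h1 : (inner ℂ (fv s c) (opr M u) : ℂ) =
        inner ℂ (fv s c) (opr N u) - hu w ζ * inner ℂ (fv s c) u := by
      have h2 : opr M u = opr N u + (-hu w ζ) • u := by
        rw [hMo]
        rfl
      rw [h2, inner_add_right, inner_smul_right]
      ring
    rw [h1]
    refine (key s c u).trans (le_of_eq ?_)
    ring
  have h1 : ‖M‖ ≤ (4 * C1 + 4 * d + C2) * g := by
    rw [← (hS d).2.1 M]
    exact hMn
  have h2 : N k - hu w ζ = M k := by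
    rw [hM, ContinuousMap.add_apply, ContinuousMap.smul_apply, ContinuousMap.one_apply,
      smul_eq_mul]
    ring
  rw [h2]
  exact (ContinuousMap.norm_coe_le_norm M k).trans h1

end

end Pool.Agent.N123.SD
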